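import Mathlib

/-!
Affine planes over finite fields as cover-free families. (The lemma `transfer` and the shape of the
proof of `plane` are those of the library module `R_seed8.W212.EFF.Upper`, which treats prime
orders.)
-/

set_option autoImplicit false

namespace Pool.Agent.KS6_73.CF

open Finset

/-- transfer to `Fin n` -/
lemma transfer {P L : Type*} [Fintype P] [DecidableEq P] [Fintype L] [DecidableEq L]
    {n q t : ℕ} (hn : Fintype.card P = n) (hL : n < Fintype.card L) (l : L → Finset P)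
    (hq : ∀ i, (l i).card = q) (hint : ∀ i j, i ≠ j → (l i ∩ l j).card ≤ 1) (htq : t < q)
    (hq2 : 2 ≤ q) :
    ∃ F : Finset (Finset (Fin n)), n < F.card ∧
      ∀ A ∈ F, ∀ S ⊆ F.erase A, S.card ≤ t → ¬ A ⊆ S.sup id := by
  classical
  let e : P ≃ Fin n := Fintype.equivFinOfCardEq hn
  let l' : L → Finset (Fin n) := fun i => (l i).map e.toEmbedding
  have hc : ∀ i, (l' i).card = q := fun i => by
    simp only [l', Finset.card_map, hq]
  have hi : ∀ i j, i ≠ j → (l' i ∩ l' j).card ≤ 1 := fun i j hij => by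
    simp only [l', ← Finset.map_inter, Finset.card_map]
    exact hint i j hij
  have hinj : Function.Injective l' := by
    intro i j hij
    by_contra hne
    have := hi i j hne
    rw [hij, Finset.inter_self, hc] at this
    omega
  refine ⟨Finset.univ.image l', ?_, ?_⟩
  · rw [Finset.card_image_of_injective _ hinj, Finset.card_univ]
    exact hL
  · intro A hA S hS hSc hAS
    obtain ⟨i, _, rfl⟩ := Finset.mem_image.1 hA
    have h1 : l' i = S.biUnion (fun B => l' i ∩ B) := by
      ext x
      simp only [Finset.mem_biUnion, Finset.mem_inter]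
      constructor
      · intro hx
        obtain ⟨B, hB, hxB⟩ := Finset.mem_sup.1 (hAS hx)
        exact ⟨B, hB, hx, hxB⟩
      · rintro ⟨B, _, hx, _⟩
        exact hx
    have h2 : (l' i).card ≤ ∑ B ∈ S, (l' i ∩ B).card := by
      conv_lhs => rw [h1]
      exact Finset.card_biUnion_le
    have h3 : ∑ B ∈ S, (l' i ∩ B).card ≤ ∑ B ∈ S, 1 := by
      apply Finset.sum_le_sum
      intro B hB
      have hB' := Finset.mem_erase.1 (hS hB)
      obtain ⟨j, _, rfl⟩ := Finset.mem_image.1 hB'.2
      apply hi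
      rintro rfl
      exact hB'.1 rfl
    rw [Finset.sum_const, smul_eq_mul, mul_one] at h3
    rw [hc] at h2
    omega

/-- the lines of the affine plane over `K` -/
def line (K : Type*) [Field K] [Fintype K] [DecidableEq K] : Option K × K → Finset (K × K)
  | (some m, b) => Finset.univ.image (fun x => (x, m * x + b))
  | (none, c) => Finset.univ.image (fun y => (c, y))

lemma plane (K : Type*) [Field K] [Fintype K] {q t : ℕ} (hK : Fintype.card K = q) (ht : t < q) :
    ∃ F : Finset (Finset (Fin (q ^ 2))), q ^ 2 < F.card ∧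
      ∀ A ∈ F, ∀ S ⊆ F.erase A, S.card ≤ t → ¬ A ⊆ S.sup id := by
  classical
  have hq2 : 2 ≤ q := by
    rw [← hK]
    exact Fintype.one_lt_card
  refine transfer (P := K × K) (L := Option K × K) (q := q) ?_ ?_
    (line K) ?_ ?_ ht hq2
  · rw [Fintype.card_prod, hK]
    ring
  · rw [Fintype.card_prod, Fintype.card_option, hK]
    nlinarith
  · rintro ⟨_ | m, b⟩
    · simp only [line]
      rw [Finset.card_image_of_injective, Finset.card_univ, hK]
      intro x y h
      exact (Prod.mk.inj h).2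
    · simp only [line]
      rw [Finset.card_image_of_injective, Finset.card_univ, hK]
      intro x y h
      exact (Prod.mk.inj h).1
  · rintro ⟨m, b⟩ ⟨m', b'⟩ hne
    rw [Finset.card_le_one]
    rintro ⟨x, y⟩ h1 ⟨x', y'⟩ h2
    rw [Finset.mem_inter] at h1 h2
    rcases m with _ | m <;> rcases m' with _ | m' <;>
      simp only [line, Finset.mem_image, Finset.mem_univ, true_and, Prod.mk.injEq] at h1 h2
    · obtain ⟨⟨_, rfl, _⟩, ⟨_, h3, _⟩⟩ := h1
      exact absurd (by rw [h3]) hne
    · obtain ⟨⟨_, rfl, rfl⟩, ⟨_, rfl, h3⟩⟩ := h1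
      obtain ⟨⟨_, h5, rfl⟩, ⟨_, h6, h4⟩⟩ := h2
      rw [← h5, ← h3, ← h4, h6, ← h5]
    · obtain ⟨⟨_, h3, h4⟩, ⟨_, h5, rfl⟩⟩ := h1
      obtain ⟨⟨_, h6, h7⟩, ⟨_, h8, rfl⟩⟩ := h2
      rw [← h8, ← h4, ← h7, h3, h6, ← h5, ← h8]
    · obtain ⟨⟨_, rfl, h3⟩, ⟨_, rfl, h4⟩⟩ := h1
      obtain ⟨⟨_, rfl, h5⟩, ⟨_, rfl, h6⟩⟩ := h2
      rename_i a b''
      by_cases hmm : m = m'
      · subst hmm
        have hb : b = b' := by
          have : m * a + b = m * a + b' := by rw [h3, h4]
          exact add_left_cancel this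
        exact absurd (by rw [hb]) hne
      · have hx : (m - m') * (a - b'') = 0 := by
          have e1 : m * a + b = m' * a + b' := by rw [h3, h4]
          have e2 : m * b'' + b = m' * b'' + b' := by rw [h5, h6]
          linear_combination e1 - e2
        rcases mul_eq_zero.1 hx with h7 | h7
        · exact absurd (sub_eq_zero.1 h7) hmm
        · have h8 := sub_eq_zero.1 h7
          subst h8
          rw [← h3, ← h5]

/-- prime orders, for existence -/
lemma exists_family (t : ℕ) : ∃ n : ℕ, ∃ F : Finset (Finset (Fin n)), n < F.card ∧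
      ∀ A ∈ F, ∀ S ⊆ F.erase A, S.card ≤ t → ¬ A ⊆ S.sup id := by
  obtain ⟨p, hp, hpp⟩ := Nat.exists_infinite_primes (t + 1)
  haveI : Fact p.Prime := ⟨hpp⟩
  exact ⟨p ^ 2, plane (ZMod p) (ZMod.card p) (by omega)⟩

/-- prime power orders -/
lemma plane_pp {q t : ℕ} (hq : IsPrimePow q) (ht : t < q) :
    ∃ F : Finset (Finset (Fin (q ^ 2))), q ^ 2 < F.card ∧
      ∀ A ∈ F, ∀ S ⊆ F.erase A, S.card ≤ t → ¬ A ⊆ S.sup id := by
  classical
  obtain ⟨p, k, hp, hk, rfl⟩ := (isPrimePow_nat_iff q).1 hq
  haveI : Fact p.Prime := ⟨hp⟩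
  haveI : Fintype (GaloisField p k) := Fintype.ofFinite _
  refine plane (GaloisField p k) ?_ ht
  rw [← Nat.card_eq_fintype_card]
  exact GaloisField.card p k hk.ne'

end Pool.Agent.KS6_73.CF
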