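import Pool.Graph.R_seed8.W212.EFF.Ineq

/-!
# Cover-free families with linearly dependent indicator vectors

Helper file for MP_0b1105_co (Q2). Let `F` be a `t`-cover-free family on `n` points whose indicator
vectors are linearly dependent over the reals. Write a dependency as
`∑_{A ∈ P} λ_A 1_A = ∑_{B ∈ M} μ_B 1_B =: h` with positive `λ, μ`. For `A ∈ P` the sets of `M` with
the weights `μ` cover `A`, so the basic inequality of the library gives
`(t + 1)^2 ≤ μ(M) * ∑_{v ∈ A} 1 / h v`. Summing over `A ∈ P` with the weights `λ_A`, we get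
`(t + 1)^2 λ(P) ≤ μ(M) n`, and by symmetry `(t + 1)^2 μ(M) ≤ λ(P) n`. Hence `(t + 1)^2 ≤ n`.
-/

set_option autoImplicit false

namespace Pool.Agent.KS6_73.CF

open Finset Pool.Agent.W212.EFF

variable {V : Type*} [DecidableEq V]

lemma cov_family {I : Finset (Finset V)} {A : Finset V}
    (hcov : ∀ x ∈ A, ∃ B ∈ I, x ∈ B) : ∀ {k : ℕ} {C : Finset V}, C ⊆ A →
    Cov (face I (fun B => B)) k C → ∃ G ⊆ I, G.card ≤ k ∧ C ⊆ G.sup id
  | 0, C, _, h => by
      simp only [Cov] at h
      subst h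
      exact ⟨∅, by simp, by simp, by simp⟩
  | k + 1, C, hC, h => by
      classical
      obtain ⟨T, hT, h1⟩ := h
      obtain ⟨G, hG, hGc, hGs⟩ := cov_family hcov (Finset.sdiff_subset.trans hC) h1
      have hred : ∀ B ∈ I, C ∩ T ⊆ B → ∃ G ⊆ I, G.card ≤ k + 1 ∧ C ⊆ G.sup id := by
        intro B hB hCB
        refine ⟨insert B G, Finset.insert_subset hB hG, (Finset.card_insert_le _ _).trans
          (by omega), ?_⟩
        intro x hx
        rw [Finset.sup_insert]
        by_cases hxT : x ∈ T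
        · exact Finset.mem_union_left _ (hCB (Finset.mem_inter.2 ⟨hx, hxT⟩))
        · exact Finset.mem_union_right _ (hGs (Finset.mem_sdiff.2 ⟨hx, hxT⟩))
      rcases hT with hT | ⟨i, hi1, hi⟩
      · by_cases hCT : (C ∩ T).Nonempty
        · obtain ⟨x, hx⟩ := hCT
          have hx' := Finset.mem_inter.1 hx
          obtain ⟨B, hB, hxB⟩ := hcov x (hC hx'.1)
          refine hred B hB ?_
          intro y hy
          have hy' := Finset.mem_inter.1 hy
          have := Finset.card_le_one.1 hT y hy'.2 x hx'.2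
          rw [this]
          exact hxB
        · rw [Finset.not_nonempty_iff_eq_empty] at hCT
          refine ⟨G, hG, by omega, ?_⟩
          intro x hx
          apply hGs
          refine Finset.mem_sdiff.2 ⟨hx, fun hxT => ?_⟩
          have : x ∈ C ∩ T := Finset.mem_inter.2 ⟨hx, hxT⟩
          rw [hCT] at this
          exact absurd this (Finset.notMem_empty x)
      · exact hred i hi1 (Finset.inter_subset_right.trans hi)

/-- One half of the argument. -/
lemma half [Fintype V] {t : ℕ} {P M : Finset (Finset V)} {a b : Finset V → ℝ}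
    (ha : ∀ A ∈ P, 0 < a A) (hb : ∀ B ∈ M, 0 < b B)
    (hcf : ∀ A ∈ P, ∀ G ⊆ M, G.card ≤ t → ¬ A ⊆ G.sup id)
    (hh : ∀ v, ∑ A ∈ P.filter (fun A => v ∈ A), a A = ∑ B ∈ M.filter (fun B => v ∈ B), b B) :
    ((t : ℝ) + 1) ^ 2 * ∑ A ∈ P, a A ≤ (∑ B ∈ M, b B) * Fintype.card V := by
  classical
  set h : V → ℝ := fun v => ∑ B ∈ M.filter (fun B => v ∈ B), b B with hdef
  have hh' : ∀ v, ∑ A ∈ P.filter (fun A => v ∈ A), a A = h v := hh
  have hpos : ∀ A ∈ P, ∀ v ∈ A, 0 < h v := by
    intro A hA v hv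
    rw [← hh' v]
    exact Finset.sum_pos (fun B hB => ha B (Finset.mem_filter.1 hB).1)
      ⟨A, Finset.mem_filter.2 ⟨hA, hv⟩⟩
  have hh0 : ∀ v, 0 ≤ h v := fun v =>
    Finset.sum_nonneg fun B hB => (hb B (Finset.mem_filter.1 hB).1).le
  have hW : 0 ≤ ∑ B ∈ M, b B := Finset.sum_nonneg fun B hB => (hb B hB).le
  have key : ∀ A ∈ P, ((t : ℝ) + 1) ^ 2 ≤ (∑ B ∈ M, b B) * ∑ v ∈ A, 1 / h v := by
    intro A hA
    have h1 := main_ineq (I := M) (S := fun B : Finset V => B) (w := b)
      (fun B hB => (hb B hB).le) A.card A le_rfl (fun v hv => hpos A hA v hv)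
    have h2 : t + 1 ≤ Y (face M (fun B : Finset V => B)) A := by
      by_contra hlt
      push Not at hlt
      have hcov : ∀ x ∈ A, ∃ B ∈ M, x ∈ B := by
        intro x hx
        by_contra hcon
        push Not at hcon
        have h3 := hpos A hA x hx
        have h4 : M.filter (fun B => x ∈ B) = ∅ := by
          rw [Finset.filter_eq_empty_iff]
          exact fun B hB => hcon B hB
        simp only [hdef, h4, Finset.sum_empty, lt_irrefl] at h3
      obtain ⟨G, hG, hGc, hGs⟩ := cov_family hcov (Finset.Subset.refl A)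
        (Y_spec (face_cpx M (fun B : Finset V => B)) A)
      exact hcf A hA G hG (by omega) hGs
    have h3 : ((t : ℝ) + 1) ^ 2 ≤ (Y (face M (fun B : Finset V => B)) A : ℝ) ^ 2 := by
      have : ((t : ℝ) + 1) ≤ (Y (face M (fun B : Finset V => B)) A : ℝ) := by exact_mod_cast h2
      exact pow_le_pow_left₀ (by positivity) this 2
    have h4 : tw M (fun B : Finset V => B) b A ≤ ∑ B ∈ M, b B :=
      Finset.sum_le_sum_of_subset_of_nonneg (Finset.filter_subset _ _)
        (fun B hB _ => (hb B hB).le)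
    have h5 : 0 ≤ ∑ v ∈ A, 1 / h v := Finset.sum_nonneg fun v _ => one_div_nonneg.2 (hh0 v)
    exact (h3.trans h1).trans (mul_le_mul_of_nonneg_right h4 h5)
  have hsum : ∑ A ∈ P, a A * ∑ v ∈ A, 1 / h v ≤ Fintype.card V := by
    have h1 : ∑ A ∈ P, a A * ∑ v ∈ A, 1 / h v =
        ∑ v : V, (∑ A ∈ P.filter (fun A => v ∈ A), a A) * (1 / h v) := by
      have h2 : ∀ A ∈ P, a A * ∑ v ∈ A, 1 / h v =
          ∑ v : V, if v ∈ A then a A * (1 / h v) else 0 := by
        intro A _
        rw [Finset.mul_sum, ← Finset.sum_filter]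
        congr 1
        ext v
        simp
      rw [Finset.sum_congr rfl h2, Finset.sum_comm]
      apply Finset.sum_congr rfl
      intro v _
      rw [← Finset.sum_filter, Finset.sum_mul]
    rw [h1]
    calc ∑ v : V, (∑ A ∈ P.filter (fun A => v ∈ A), a A) * (1 / h v)
        ≤ ∑ _v : V, (1 : ℝ) := by
          apply Finset.sum_le_sum
          intro v _
          rw [hh' v, mul_one_div]
          exact div_self_le_one _
      _ = Fintype.card V := by simp
  calc ((t : ℝ) + 1) ^ 2 * ∑ A ∈ P, a A = ∑ A ∈ P, a A * ((t : ℝ) + 1) ^ 2 := by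
        rw [Finset.mul_sum]
        exact Finset.sum_congr rfl fun A _ => mul_comm _ _
    _ ≤ ∑ A ∈ P, a A * ((∑ B ∈ M, b B) * ∑ v ∈ A, 1 / h v) :=
        Finset.sum_le_sum fun A hA => mul_le_mul_of_nonneg_left (key A hA) (ha A hA).le
    _ = (∑ B ∈ M, b B) * ∑ A ∈ P, a A * ∑ v ∈ A, 1 / h v := by
        rw [Finset.mul_sum]
        exact Finset.sum_congr rfl fun A _ => by ring
    _ ≤ (∑ B ∈ M, b B) * Fintype.card V := mul_le_mul_of_nonneg_left hsum hW

/-- The indicator vector of a set. -/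
def ind (A : Finset V) : V → ℝ := fun v => if v ∈ A then 1 else 0

/-- A `t`-cover-free family with linearly dependent indicator vectors has at least `(t + 1)^2`
points. -/
theorem dependent [Fintype V] {t : ℕ} {F : Finset (Finset V)}
    (hcf : ∀ A ∈ F, ∀ G ⊆ F.erase A, G.card ≤ t → ¬ A ⊆ G.sup id)
    (hdep : ¬ LinearIndependent ℝ (fun A : F => ind A.1)) : (t + 1) ^ 2 ≤ Fintype.card V := by
  classical
  rw [Fintype.not_linearIndependent_iff] at hdep
  obtain ⟨g, hg, A₀, hA₀⟩ := hdep
  set l : Finset V → ℝ := fun A => if hA : A ∈ F then g ⟨A, hA⟩ else 0 with hl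
  have hl1 : ∀ A : F, l A.1 = g A := fun A => by simp [hl]
  have hrel : ∀ v, ∑ A ∈ F.filter (fun A => v ∈ A), l A = 0 := by
    intro v
    have h1 := congrFun hg v
    simp only [Finset.sum_apply, Pi.smul_apply, smul_eq_mul, Pi.zero_apply, ind, mul_ite, mul_one,
      mul_zero] at h1
    rw [Finset.sum_filter, ← Finset.sum_coe_sort F (fun A => if v ∈ A then l A else 0)]
    refine Eq.trans ?_ h1
    apply Finset.sum_congr rfl
    intro A _
    simp only [hl1]
  set P := F.filter (fun A => 0 < l A) with hP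
  set M := F.filter (fun A => l A < 0) with hM
  have hbal : ∀ v, ∑ A ∈ P.filter (fun A => v ∈ A), l A =
      ∑ B ∈ M.filter (fun B => v ∈ B), (- l B) := by
    intro v
    have h1 : ∑ A ∈ F.filter (fun A => v ∈ A), l A =
        ∑ A ∈ (F.filter (fun A => v ∈ A)).filter (fun A => 0 < l A), l A +
        ∑ A ∈ (F.filter (fun A => v ∈ A)).filter (fun A => ¬ 0 < l A), l A :=
      (Finset.sum_filter_add_sum_filter_not _ _ _).symm
    have h2 : ∑ A ∈ (F.filter (fun A => v ∈ A)).filter (fun A => ¬ 0 < l A), l A =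
        ∑ A ∈ M.filter (fun A => v ∈ A), l A := by
      symm
      apply Finset.sum_subset
      · intro A hA
        simp only [hM, Finset.mem_filter] at hA ⊢
        exact ⟨⟨hA.1.1, hA.2⟩, not_lt.2 hA.1.2.le⟩
      · intro A hA hA2
        simp only [hM, Finset.mem_filter, not_and] at hA hA2
        have h3 : ¬ l A < 0 := fun h => hA2 ⟨hA.1.1, h⟩ hA.1.2
        exact le_antisymm (not_lt.1 hA.2) (not_lt.1 h3)
    have h3 : (F.filter (fun A => v ∈ A)).filter (fun A => 0 < l A) =
        P.filter (fun A => v ∈ A) := by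
      rw [hP, Finset.filter_filter, Finset.filter_filter]
      exact Finset.filter_congr fun A _ => and_comm
    rw [hrel v, h2, h3] at h1
    rw [Finset.sum_neg_distrib]
    linarith
  have hcfP : ∀ A ∈ P, ∀ G ⊆ M, G.card ≤ t → ¬ A ⊆ G.sup id := by
    intro A hA G hG hGc
    rw [hP, Finset.mem_filter] at hA
    refine hcf A hA.1 G (fun B hB => Finset.mem_erase.2 ⟨?_, ?_⟩) hGc
    · rintro rfl
      have := (Finset.mem_filter.1 (hG hB)).2
      exact absurd hA.2 (not_lt.2 this.le)
    · exact (Finset.mem_filter.1 (hG hB)).1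
  have hcfM : ∀ A ∈ M, ∀ G ⊆ P, G.card ≤ t → ¬ A ⊆ G.sup id := by
    intro A hA G hG hGc
    rw [hM, Finset.mem_filter] at hA
    refine hcf A hA.1 G (fun B hB => Finset.mem_erase.2 ⟨?_, ?_⟩) hGc
    · rintro rfl
      have := (Finset.mem_filter.1 (hG hB)).2
      exact absurd hA.2 (not_lt.2 this.le)
    · exact (Finset.mem_filter.1 (hG hB)).1
  have haP : ∀ A ∈ P, 0 < l A := fun A hA => (Finset.mem_filter.1 hA).2
  have hbM : ∀ A ∈ M, 0 < - l A := fun A hA => neg_pos.2 (Finset.mem_filter.1 hA).2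
  have h1 := half haP hbM hcfP hbal
  have h2 := half hbM haP hcfM (fun v => (hbal v).symm)
  set p := ∑ A ∈ P, l A with hp
  set m := ∑ B ∈ M, (- l B) with hm
  have hp0 : 0 ≤ p := Finset.sum_nonneg fun A hA => (haP A hA).le
  have hm0 : 0 ≤ m := Finset.sum_nonneg fun A hA => (hbM A hA).le
  have hpm : 0 < p ∨ 0 < m := by
    have h3 : l A₀.1 ≠ 0 := by rw [hl1]; exact hA₀
    rcases lt_or_gt_of_ne h3 with h4 | h4
    · right
      have h5 : A₀.1 ∈ M := Finset.mem_filter.2 ⟨A₀.2, h4⟩
      exact Finset.sum_pos (fun A hA => hbM A hA) ⟨_, h5⟩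
    · left
      have h5 : A₀.1 ∈ P := Finset.mem_filter.2 ⟨A₀.2, h4⟩
      exact Finset.sum_pos (fun A hA => haP A hA) ⟨_, h5⟩
  set n : ℝ := (Fintype.card V : ℝ) with hn
  have hn0 : 0 ≤ n := Nat.cast_nonneg _
  have hfin : ((t : ℝ) + 1) ^ 2 ≤ n := by
    have h3 : ((t : ℝ) + 1) ^ 2 * (p + m) ≤ n * (p + m) := by nlinarith
    have h4 : 0 < p + m := by rcases hpm with h | h <;> linarith
    exact le_of_mul_le_mul_right h3 h4
  rw [hn] at hfin
  exact_mod_cast hfin

/-- A `t`-cover-free family with more members than points has at least `(t + 1)^2` points. -/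
theorem lower [Fintype V] {t : ℕ} {F : Finset (Finset V)}
    (hcf : ∀ A ∈ F, ∀ G ⊆ F.erase A, G.card ≤ t → ¬ A ⊆ G.sup id)
    (hlt : Fintype.card V < F.card) : (t + 1) ^ 2 ≤ Fintype.card V := by
  apply dependent hcf
  intro h
  have h1 := h.fintype_card_le_finrank
  rw [Module.finrank_fintype_fun_eq_card, Fintype.card_coe] at h1
  omega

end Pool.Agent.KS6_73.CF
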