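import Mathlib

/-!
# The configuration `-x + y = z`, `y = t x` is not Ramsey partition regular

Helper file for MP_94ebd3_co.
-/

set_option autoImplicit false

namespace Pool.Agent.KS6_73.DQ

open Nat Finset

/-- The least prime not dividing `n`. -/
noncomputable def mp (n : ℕ) : ℕ := sInf {p | p.Prime ∧ ¬ p ∣ n}

lemma mp_mem {n : ℕ} (hn : 0 < n) : (mp n).Prime ∧ ¬ mp n ∣ n := by
  have : {p : ℕ | p.Prime ∧ ¬ p ∣ n}.Nonempty := by
    obtain ⟨p, hp, hpp⟩ := Nat.exists_infinite_primes (n + 1)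
    exact ⟨p, hpp, fun h => by have := Nat.le_of_dvd hn h; omega⟩
  exact Nat.sInf_mem this

lemma mp_le {n p : ℕ} (hp : p.Prime) (h : ¬ p ∣ n) : mp n ≤ p := Nat.sInf_le ⟨hp, h⟩

lemma dvd_of_lt_mp {n p : ℕ} (hp : p.Prime) (h : p < mp n) : p ∣ n := by
  by_contra hcon
  exact absurd (mp_le hp hcon) (by omega)

lemma lt_mp {n M : ℕ} (hn : 0 < n) (h : ∀ p, p.Prime → p ≤ M → p ∣ n) : M < mp n := by
  by_contra hcon
  exact (mp_mem hn).2 (h _ (mp_mem hn).1 (by omega))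

/-- The part of `n` composed of primes below `m`. -/
noncomputable def S (m n : ℕ) : ℕ := ∏ p ∈ (range m).filter Nat.Prime, p ^ n.factorization p

lemma S_mul {m x t : ℕ} (hx : x ≠ 0) (ht : t ≠ 0) : S m (x * t) = S m x * S m t := by
  unfold S
  rw [← Finset.prod_mul_distrib]
  refine Finset.prod_congr rfl fun p _ => ?_
  rw [Nat.factorization_mul hx ht, Finsupp.add_apply, pow_add]

lemma S_self {m x : ℕ} (hx : x ≠ 0) (h : ∀ p, p.Prime → p ∣ x → p < m) : S m x = x := by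
  unfold S
  conv_rhs => rw [← Nat.prod_factorization_pow_eq_self hx]
  rw [Finsupp.prod]
  symm
  apply Finset.prod_subset
  · intro p hp
    rw [Nat.support_factorization, Nat.mem_primeFactors] at hp
    rw [Finset.mem_filter, Finset.mem_range]
    exact ⟨h p hp.1 hp.2.1, hp.1⟩
  · intro p _ hp
    rw [Finsupp.notMem_support_iff] at hp
    rw [hp, pow_zero]

lemma S_dvd {m n : ℕ} (hn : n ≠ 0) : S m n ∣ n := by
  have h1 : S m n = ∏ p ∈ ((range m).filter Nat.Prime) ∩ n.primeFactors, p ^ n.factorization p := by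
    unfold S
    symm
    apply Finset.prod_subset Finset.inter_subset_left
    intro p hp hp2
    rw [Finset.mem_inter, not_and] at hp2
    have h3 := hp2 hp
    rw [← Nat.support_factorization, Finsupp.notMem_support_iff] at h3
    rw [h3, pow_zero]
  rw [h1]
  conv_rhs => rw [← Nat.prod_factorization_pow_eq_self hn]
  rw [Finsupp.prod, Nat.support_factorization]
  exact Finset.prod_dvd_prod_of_subset _ _ _ Finset.inter_subset_right

lemma S_one {m n : ℕ} (h : ∀ p, p.Prime → p < m → ¬ p ∣ n) : S m n = 1 := by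
  unfold S
  refine Finset.prod_eq_one fun p hp => ?_
  rw [Finset.mem_filter, Finset.mem_range] at hp
  rw [Nat.factorization_eq_zero_of_not_dvd (h p hp.2 hp.1), pow_zero]

/-- The rough part of `n`. -/
noncomputable def u (n : ℕ) : ℕ := n / S (mp n) n

lemma not_dvd_u {p n : ℕ} (hn : n ≠ 0) (hp : p.Prime) (h : p < mp n) : ¬ p ∣ u n := by
  intro h1
  have h2 : p ^ n.factorization p ∣ S (mp n) n := by
    unfold S
    exact Finset.dvd_prod_of_mem (fun p => p ^ n.factorization p)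
      (Finset.mem_filter.2 ⟨Finset.mem_range.2 h, hp⟩)
  have h3 : u n * S (mp n) n = n := Nat.div_mul_cancel (S_dvd hn)
  have h4 : p * p ^ n.factorization p ∣ n := by
    rw [← h3]
    conv_rhs => rw [← h3]
    rw [h3]
    exact Nat.mul_dvd_mul h1 h2
  rw [← pow_succ'] at h4
  exact Nat.pow_succ_factorization_not_dvd hn hp h4

/-- For `y = x t` with `t` divisible by all primes up to `x`, the rough parts agree. -/
lemma u_quot {x t : ℕ} (hx : 0 < x) (ht : 0 < t) (h : ∀ p, p.Prime → p ≤ x → p ∣ t) :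
    u (x * t) = u t := by
  have h1 : mp (x * t) = mp t := by
    unfold mp
    congr 1
    ext p
    simp only [Set.mem_ofPred_eq]
    refine and_congr_right fun hp => not_congr ?_
    constructor
    · intro h2
      rcases (Nat.Prime.dvd_mul hp).1 h2 with h3 | h3
      · exact h p hp (Nat.le_of_dvd hx h3)
      · exact h3
    · intro h2
      exact Dvd.dvd.mul_left h2 x
  have h2 : x < mp t := lt_mp ht h
  unfold u
  rw [h1, S_mul hx.ne' ht.ne', S_self hx.ne' (fun p _ hpx =>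
    lt_of_le_of_lt (Nat.le_of_dvd hx hpx) h2), Nat.mul_div_mul_left _ _ hx]

/-- For `z = x (t - 1)` with `t` divisible by all primes up to `mp x`, `u z = u x * (t - 1)`. -/
lemma u_diff {x s : ℕ} (hx : 0 < x) (hs : 0 < s) (h : ∀ p, p.Prime → p ≤ mp x → p ∣ s + 1) :
    u (x * s) = u x * s := by
  have hns : ∀ p, p.Prime → p ≤ mp x → ¬ p ∣ s := by
    intro p hp h1 h2
    have h3 := (Nat.dvd_add_right h2).1 (h p hp h1)
    exact hp.one_lt.ne' (Nat.dvd_one.1 h3)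
  have h1 : mp (x * s) = mp x := by
    apply le_antisymm
    · apply mp_le (mp_mem hx).1
      intro h2
      rcases (Nat.Prime.dvd_mul (mp_mem hx).1).1 h2 with h3 | h3
      · exact (mp_mem hx).2 h3
      · exact hns _ (mp_mem hx).1 le_rfl h3
    · by_contra hcon
      push Not at hcon
      have h5 := mp_mem (Nat.mul_pos hx hs)
      exact h5.2 (Dvd.dvd.mul_right (dvd_of_lt_mp h5.1 hcon) s)
  unfold u
  rw [h1, S_mul hx.ne' hs.ne', S_one (fun p hp h3 => hns p hp h3.le), mul_one,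
    Nat.div_mul_right_comm (S_dvd hx.ne')]

/-- The odd part. -/
def od (n : ℕ) : ℕ := n / 2 ^ n.factorization 2

lemma od_mul_pow (n : ℕ) : 2 ^ n.factorization 2 * od n = n := Nat.ordProj_mul_ordCompl_eq_self n 2

lemma od_odd {n : ℕ} (hn : n ≠ 0) : ¬ 2 ∣ od n := Nat.not_dvd_ordCompl Nat.prime_two hn

lemma od_pos {n : ℕ} (hn : n ≠ 0) : 0 < od n := Nat.ordCompl_pos 2 hn

lemma od_eq {a b : ℕ} (hb : ¬ 2 ∣ b) : od (2 ^ a * b) = b := by
  have hb0 : b ≠ 0 := by rintro rfl; exact hb (dvd_zero 2)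
  have h1 : (2 ^ a * b).factorization 2 = a := by
    rw [Nat.factorization_mul (by positivity) hb0, Finsupp.add_apply,
      Nat.factorization_eq_zero_of_not_dvd hb, Nat.prime_two.factorization_pow]
    simp
  unfold od
  rw [h1, Nat.mul_div_cancel_left _ (by positivity)]

lemma od_mul (a b : ℕ) : od (a * b) = od a * od b := Nat.ordCompl_mul a b 2

/-- The colouring. -/
noncomputable def c0 (n : ℕ) : Bool × Bool × Fin 4 × Fin 3 :=
  (decide (2 ∣ n), decide (2 ^ mp n ∣ od n - 1), ⟨od (od n - 1) % 4, Nat.mod_lt _ (by norm_num)⟩,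
    ⟨u n % 3, Nat.mod_lt _ (by norm_num)⟩)

lemma c0_two {a b : ℕ} (h : c0 a = c0 b) : (2 ∣ a ↔ 2 ∣ b) := by
  have := congrArg Prod.fst h
  simpa [c0] using this

lemma c0_mp {a b : ℕ} (h : c0 a = c0 b) : (2 ^ mp a ∣ od a - 1 ↔ 2 ^ mp b ∣ od b - 1) := by
  have := congrArg (fun q => q.2.1) h
  simpa [c0] using this

lemma c0_od {a b : ℕ} (h : c0 a = c0 b) : od (od a - 1) % 4 = od (od b - 1) % 4 := by
  have := congrArg (fun q => q.2.2.1.val) h
  simpa [c0] using this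

lemma c0_u {a b : ℕ} (h : c0 a = c0 b) : u a % 3 = u b % 3 := by
  have := congrArg (fun q => q.2.2.2.val) h
  simpa [c0] using this

/-- Case I: elements of `H` divisible by everything. -/
lemma caseI {H : Set ℕ} (hpos : ∀ h ∈ H, 0 < h) (hmono : ∀ x ∈ H, ∀ y ∈ H, c0 x = c0 y)
    (hc : ∀ x ∈ H, ∀ y ∈ H, x < y → ∃ t, y = t * x ∧ c0 (y - x) = c0 t)
    (hI : ∀ N, 0 < N → ∃ y ∈ H, N ∣ y) : False := by
  obtain ⟨x, hx, h6⟩ := hI 6 (by norm_num)
  have hx0 := hpos x hx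
  set M := max x (mp x) with hM
  have hM0 : 0 < M ! := Nat.factorial_pos M
  obtain ⟨y, hy, w, hw⟩ := hI (2 * x * M !) (by positivity)
  have hy0 := hpos y hy
  have hw0 : 0 < w := by
    rcases Nat.eq_zero_or_pos w with rfl | h
    · omega
    · exact h
  have hxy : x < y := by
    have h1 : 0 < M ! * w := Nat.mul_pos hM0 hw0
    have h2 : y = x * (2 * (M ! * w)) := by rw [hw]; ring
    nlinarith
  obtain ⟨t, ht, hz⟩ := hc x hx y hy hxy
  have ht2 : t = M ! * (2 * w) := by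
    have h2 : t * x = (M ! * (2 * w)) * x := by rw [← ht, hw]; ring
    exact Nat.eq_of_mul_eq_mul_right hx0 h2
  have hpt : ∀ p, p.Prime → p ≤ M → p ∣ t := by
    intro p hp hpM
    rw [ht2]
    exact Dvd.dvd.mul_right ((Nat.Prime.dvd_factorial hp).2 hpM) _
  obtain ⟨s, rfl⟩ : ∃ s, t = s + 1 := ⟨t - 1, by
    have : 0 < t := by rw [ht2]; positivity
    omega⟩
  have hs0 : 0 < s := by
    rcases Nat.eq_zero_or_pos s with rfl | h
    · omega
    · exact h
  have h1 : y - x = x * s := by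
    rw [ht, add_mul, one_mul, Nat.add_sub_cancel, mul_comm]
  have h2 : u (y - x) = u x * s := by
    rw [h1]
    exact u_diff hx0 hs0 (fun p hp h => hpt p hp (h.trans (le_max_right _ _)))
  have h3 : u y = u (s + 1) := by
    rw [ht, mul_comm]
    exact u_quot hx0 (by omega) (fun p hp h => hpt p hp (h.trans (le_max_left _ _)))
  have h4 := c0_u hz
  have h5 := c0_u (hmono x hx y hy)
  rw [h2] at h4
  rw [h3] at h5
  have hmp3 : 3 < mp x := by
    apply lt_mp hx0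
    intro p hp hp3
    have h6' : p = 2 ∨ p = 3 := by
      have := hp.two_le
      omega
    rcases h6' with rfl | rfl
    · exact dvd_trans (by norm_num) h6
    · exact dvd_trans (by norm_num) h6
  have h7 : 3 ∣ s + 1 := hpt 3 Nat.prime_three (le_trans hmp3.le (le_max_right _ _))
  have h8 : ¬ 3 ∣ u x := not_dvd_u hx0.ne' Nat.prime_three hmp3
  have h9 : (u x * s) % 3 = u x % 3 := by rw [h4, h5]
  apply h8
  have h10 : u x * (s + 1) = u x * s + u x := by ring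
  have h11 : 3 ∣ u x * (s + 1) := Dvd.dvd.mul_left h7 _
  omega

lemma exists_max {H : Set ℕ} (hne : H.Nonempty) (f : ℕ → ℕ) (k : ℕ) (hk : ∀ y ∈ H, f y ≤ k) :
    ∃ x ∈ H, ∀ y ∈ H, f y ≤ f x := by
  have h1 : (f '' H).Nonempty := hne.image f
  have h2 : BddAbove (f '' H) := ⟨k, by rintro _ ⟨y, hy, rfl⟩; exact hk y hy⟩
  obtain ⟨x, hx, hx2⟩ := Nat.sSup_mem h1 h2
  exact ⟨x, hx, fun y hy => by rw [hx2]; exact le_csSup h2 ⟨y, hy, rfl⟩⟩

/-- If the `p`-part is bounded on the chain `H`, then from some point on `p` does not divide the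
quotients. -/
lemma bounded_prime {H : Set ℕ} (hne : H.Nonempty) (hpos : ∀ h ∈ H, 0 < h)
    (hdvd : ∀ x ∈ H, ∀ y ∈ H, x < y → x ∣ y) {p k : ℕ} (hp : p.Prime)
    (hk : ∀ y ∈ H, ¬ p ^ k ∣ y) :
    ∃ x₀ ∈ H, ∀ x ∈ H, ∀ y ∈ H, x₀ ≤ x → x < y → ∀ t, y = t * x → ¬ p ∣ t := by
  obtain ⟨x₀, h0, h1⟩ := exists_max hne (fun n => n.factorization p) k (by
    intro y hy
    by_contra hcon
    push Not at hcon
    exact hk y hy (dvd_trans (pow_dvd_pow p hcon.le) (Nat.ordProj_dvd y p)))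
  refine ⟨x₀, h0, fun x hx y hy h2 h3 t ht hpt => ?_⟩
  have hx0 := hpos x hx
  have hy0 := hpos y hy
  have h4 : x₀.factorization p ≤ x.factorization p := by
    rcases h2.eq_or_lt with rfl | h2
    · exact le_rfl
    · exact (Nat.factorization_le_iff_dvd (hpos x₀ h0).ne' hx0.ne').2 (hdvd _ h0 _ hx h2) p
  have h5 : y.factorization p ≤ x₀.factorization p := h1 y hy
  have ht0 : t ≠ 0 := by rintro rfl; omega
  have h6 : y.factorization p = t.factorization p + x.factorization p := by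
    rw [ht, Nat.factorization_mul ht0 hx0.ne', Finsupp.add_apply]
  have h7 : 0 < t.factorization p := hp.factorization_pos_of_dvd ht0 hpt
  omega

/-- `2`-parts are unbounded. -/
lemma two_unbounded {H : Set ℕ} (hinf : H.Infinite) (hpos : ∀ h ∈ H, 0 < h)
    (hc : ∀ x ∈ H, ∀ y ∈ H, x < y → ∃ t, y = t * x ∧ c0 (y - x) = c0 t) (k : ℕ) :
    ∃ y ∈ H, 2 ^ k ∣ y := by
  by_contra hcon
  push Not at hcon
  have hdvd : ∀ x ∈ H, ∀ y ∈ H, x < y → x ∣ y := by
    intro x hx y hy h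
    obtain ⟨t, ht, -⟩ := hc x hx y hy h
    exact ⟨t, by rw [ht, mul_comm]⟩
  obtain ⟨x, hx, h1⟩ := bounded_prime hinf.nonempty hpos hdvd Nat.prime_two hcon
  obtain ⟨y, hy, hxy⟩ := hinf.exists_gt x
  obtain ⟨t, ht, hz⟩ := hc x hx y hy hxy
  have h2 : ¬ 2 ∣ t := h1 x hx y hy le_rfl hxy t ht
  have h3 : ¬ 2 ∣ y - x := fun h => h2 ((c0_two hz).1 h)
  apply h3
  have ht0 : 1 ≤ t := by
    rcases Nat.eq_zero_or_pos t with rfl | h
    · omega
    · exact h
  have h4 : y - x = (t - 1) * x := by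
    rw [ht, Nat.sub_mul, one_mul]
  rw [h4]
  have : 2 ∣ t - 1 := by omega
  exact Dvd.dvd.mul_right this x

/-- Large elements of a chain are divisible by whatever divides some element. -/
lemma eventually_dvd {H : Set ℕ}
    (hdvd : ∀ x ∈ H, ∀ y ∈ H, x < y → x ∣ y) {d : ℕ} (h : ∃ y ∈ H, d ∣ y) :
    ∃ B, ∀ y ∈ H, B < y → d ∣ y := by
  obtain ⟨x, hx, hd⟩ := h
  exact ⟨x, fun y hy hxy => dvd_trans hd (hdvd x hx y hy hxy)⟩

/-- If not all integers divide elements of the chain, some prime has bounded exponent. -/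
lemma exists_prime {H : Set ℕ} (hinf : H.Infinite)
    (hdvd : ∀ x ∈ H, ∀ y ∈ H, x < y → x ∣ y) {N : ℕ} (hN : 0 < N) (h : ∀ y ∈ H, ¬ N ∣ y) :
    ∃ p k : ℕ, p.Prime ∧ ∀ y ∈ H, ¬ p ^ k ∣ y := by
  classical
  by_contra hcon
  push Not at hcon
  have key : ∀ F : Finset ℕ, (∀ d ∈ F, ∃ y ∈ H, d ∣ y) → ∃ B, ∀ y ∈ H, B < y → ∀ d ∈ F, d ∣ y := by
    intro F
    induction F using Finset.induction_on with
    | empty => exact fun _ => ⟨0, by simp⟩
    | insert a F ha ih =>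
      intro h1
      obtain ⟨B1, hB1⟩ := ih (fun d hd => h1 d (Finset.mem_insert_of_mem hd))
      obtain ⟨B2, hB2⟩ := eventually_dvd hdvd (h1 a (Finset.mem_insert_self _ _))
      refine ⟨max B1 B2, fun y hy hBy d hd => ?_⟩
      rcases Finset.mem_insert.1 hd with rfl | hd
      · exact hB2 y hy (lt_of_le_of_lt (le_max_right _ _) hBy)
      · exact hB1 y hy (lt_of_le_of_lt (le_max_left _ _) hBy) d hd
  obtain ⟨B, hB⟩ := key (N.divisors.filter (fun d => ∃ p k, p.Prime ∧ d = p ^ k)) (by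
    intro d hd
    obtain ⟨p, k, hp, rfl⟩ := (Finset.mem_filter.1 hd).2
    exact hcon p k hp)
  obtain ⟨y, hy, hBy⟩ := hinf.exists_gt B
  refine h y hy ((Nat.dvd_iff_prime_pow_dvd_dvd _ _).2 fun p k hp hpk => ?_)
  exact hB y hy hBy _ (Finset.mem_filter.2 ⟨Nat.mem_divisors.2 ⟨hpk, hN.ne'⟩, p, k, hp, rfl⟩)

/-- Pigeonhole. -/
lemma pigeon {H : Set ℕ} (hinf : H.Infinite) {ι : Type*} [Finite ι] (f : ℕ → ι) :
    ∃ i, {x ∈ H | f x = i}.Infinite := by
  by_contra hcon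
  push Not at hcon
  apply hinf
  have : H = ⋃ i, {x ∈ H | f x = i} := by
    ext x
    simp
  rw [this]
  exact Set.finite_iUnion (fun i => Set.not_infinite.1 (by simpa using hcon i))

/-- The value of `γ` at the quotients in case II. -/
lemma caseII_t {H : Set ℕ} (hinf : H.Infinite) (hpos : ∀ h ∈ H, 0 < h)
    (hc : ∀ x ∈ H, ∀ y ∈ H, x < y → ∃ t, y = t * x ∧ c0 (y - x) = c0 t)
    {N : ℕ} (hN : 0 < N) (h : ∀ y ∈ H, ¬ N ∣ y) :
    ∃ x ∈ H, ∃ y ∈ H, x < y ∧ ∀ t, y = t * x → 2 ^ mp t ∣ od t - 1 := by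
  have hdvd : ∀ x ∈ H, ∀ y ∈ H, x < y → x ∣ y := by
    intro x hx y hy h
    obtain ⟨t, ht, -⟩ := hc x hx y hy h
    exact ⟨t, by rw [ht, mul_comm]⟩
  obtain ⟨p, k, hp, hk⟩ := exists_prime hinf hdvd hN h
  obtain ⟨x₀, hx₀, h0⟩ := bounded_prime hinf.nonempty hpos hdvd hp hk
  have hinf2 : {x ∈ H | x₀ ≤ x}.Infinite := by
    intro hfin
    apply hinf
    refine (hfin.union (Set.finite_lt_nat x₀)).subset fun x hx => ?_
    by_cases hxx : x₀ ≤ x
    · exact Or.inl ⟨hx, hxx⟩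
    · exact Or.inr (not_le.1 hxx)
  obtain ⟨r, hr⟩ := pigeon hinf2 (fun x => (⟨od x % 2 ^ p, Nat.mod_lt _ (by positivity)⟩ :
    Fin (2 ^ p)))
  obtain ⟨x, hx⟩ := hr.nonempty
  obtain ⟨y, hy, hxy⟩ := hr.exists_gt x
  refine ⟨x, hx.1.1, y, hy.1.1, hxy, fun t ht => ?_⟩
  have h1 : ¬ p ∣ t := h0 x hx.1.1 y hy.1.1 hx.1.2 hxy t ht
  have h2 : mp t ≤ p := mp_le hp h1
  have hx0 := hpos x hx.1.1
  have hy0 := hpos y hy.1.1
  have ht0 : t ≠ 0 := by rintro rfl; omega
  have h3 : od x % 2 ^ p = od y % 2 ^ p := by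
    have := congrArg Fin.val (hx.2.trans hy.2.symm)
    simpa using this
  have h4 : od y = od t * od x := by rw [ht, od_mul]
  have h5 : od t ≡ 1 [MOD 2 ^ p] := by
    have h6 : od t * od x ≡ 1 * od x [MOD 2 ^ p] := by
      rw [← h4, one_mul]
      exact h3.symm
    refine Nat.ModEq.cancel_right_of_coprime ?_ h6
    refine Nat.Coprime.pow_left _ ?_
    exact (Nat.Prime.coprime_iff_not_dvd Nat.prime_two).2 (od_odd hx0.ne')
  have h6 : 2 ^ p ∣ od t - 1 := (Nat.modEq_iff_dvd' (od_pos ht0)).1 h5.symm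
  exact dvd_trans (pow_dvd_pow 2 h2) h6

/-- If all differences satisfy `2 ^ mp z ∣ od z - 1`, then for every `K` there are infinitely many
elements with `2 ^ K ∣ od x + 1`. -/
lemma caseII_z {H : Set ℕ} (hinf : H.Infinite) (hpos : ∀ h ∈ H, 0 < h)
    (hdvd : ∀ x ∈ H, ∀ y ∈ H, x < y → x ∣ y)
    (h2 : ∀ k, ∃ y ∈ H, 2 ^ k ∣ y)
    (hz : ∀ x ∈ H, ∀ y ∈ H, x < y → 2 ^ mp (y - x) ∣ od (y - x) - 1) (K : ℕ) (hK : 0 < K) :
    {x ∈ H | 2 ^ K ∣ od x + 1}.Infinite := by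
  obtain ⟨r, hr⟩ := pigeon hinf (fun x => (⟨x % K !, Nat.mod_lt _ (Nat.factorial_pos K)⟩ :
    Fin (K !)))
  refine hr.mono fun x hx => ⟨hx.1, ?_⟩
  have hx0 := hpos x hx.1
  obtain ⟨B, hB⟩ := eventually_dvd hdvd (h2 (x.factorization 2 + K))
  obtain ⟨y, hy, hxy⟩ := hr.exists_gt (max x B)
  have hxy' : x < y := lt_of_le_of_lt (le_max_left _ _) hxy
  have h3 : 2 ^ (x.factorization 2 + K) ∣ y := hB y hy.1 (lt_of_le_of_lt (le_max_right _ _) hxy)
  have h4 : x % K ! = y % K ! := by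
    have := congrArg Fin.val (hx.2.trans hy.2.symm)
    simpa using this
  have h5 : K ! ∣ y - x := (Nat.modEq_iff_dvd' hxy'.le).1 h4
  have h6 : K < mp (y - x) := by
    apply lt_mp (by omega)
    intro p hp hpK
    exact dvd_trans ((Nat.Prime.dvd_factorial hp).2 hpK) h5
  have h7 := hz x hx.1 y hy.1 hxy'
  have h8 : 2 ^ K ∣ od (y - x) - 1 := dvd_trans (pow_dvd_pow 2 h6.le) h7
  obtain ⟨w, hw⟩ := h3
  have hxo := od_mul_pow x
  set a := x.factorization 2 with ha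
  have h9 : y - x = 2 ^ a * (2 ^ K * w - od x) := by
    rw [Nat.mul_sub, hxo, hw]
    congr 1
    rw [pow_add]; ring
  have hlt : od x < 2 ^ K * w := by
    have h10 : 0 < y - x := by omega
    rw [h9] at h10
    have := Nat.pos_of_mul_pos_left h10
    omega
  have hodd : ¬ 2 ∣ 2 ^ K * w - od x := by
    intro h10
    have h11 : 2 ∣ 2 ^ K * w := Dvd.dvd.mul_right (dvd_pow_self 2 hK.ne') w
    exact od_odd hx0.ne' ((Nat.dvd_sub_iff_right hlt.le h11).1 h10)
  rw [h9, od_eq hodd] at h8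
  have h12 : 2 ^ K * w - od x - 1 = 2 ^ K * w - (od x + 1) := by omega
  rw [h12] at h8
  by_cases h13 : od x + 1 ≤ 2 ^ K * w
  · exact (Nat.dvd_sub_iff_right h13 (Dvd.intro w rfl)).1 h8
  · omega

/-- The final contradiction of case II. -/
lemma caseII {H : Set ℕ} (hinf : H.Infinite) (hpos : ∀ h ∈ H, 0 < h)
    (hc : ∀ x ∈ H, ∀ y ∈ H, x < y → ∃ t, y = t * x ∧ c0 (y - x) = c0 t)
    (h2 : ∀ k, ∃ y ∈ H, 2 ^ k ∣ y)
    (hK : ∀ K, 0 < K → {x ∈ H | 2 ^ K ∣ od x + 1}.Infinite) : False := by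
  have hdvd : ∀ x ∈ H, ∀ y ∈ H, x < y → x ∣ y := by
    intro x hx y hy h
    obtain ⟨t, ht, -⟩ := hc x hx y hy h
    exact ⟨t, by rw [ht, mul_comm]⟩
  obtain ⟨x, hx, hx4⟩ := (hK 2 (by norm_num)).nonempty
  have hx0 := hpos x hx
  have hxo := od_odd hx0.ne'
  -- `od x + 1 = 2 ^ k * q`
  set k := (od x + 1).factorization 2 with hk
  set q := od (od x + 1) with hq
  have hkq : 2 ^ k * q = od x + 1 := od_mul_pow _
  have hqo : ¬ 2 ∣ q := od_odd (by omega)
  have hk2 : 2 ≤ k := by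
    rw [hk]
    exact (Nat.Prime.pow_dvd_iff_le_factorization Nat.prime_two (by omega)).1 hx4
  set a := x.factorization 2 with ha
  obtain ⟨B, hB⟩ := eventually_dvd hdvd (h2 (a + (k + 2)))
  obtain ⟨y, hy, hxy⟩ := (hK (k + 2) (by omega)).exists_gt (max x B)
  have hxy' : x < y := lt_of_le_of_lt (le_max_left _ _) hxy
  have hy2 : 2 ^ (a + (k + 2)) ∣ y := hB y hy.1 (lt_of_le_of_lt (le_max_right _ _) hxy)
  have hy0 := hpos y hy.1
  obtain ⟨t, ht, hz⟩ := hc x hx y hy.1 hxy'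
  have ht0 : t ≠ 0 := by rintro rfl; omega
  have hto := od_odd ht0
  have htp := od_pos ht0
  have hxa : 2 ^ a * od x = x := od_mul_pow x
  obtain ⟨l, hl⟩ : ∃ l, k = l + 2 := ⟨k - 2, by omega⟩
  -- the quotient
  obtain ⟨w, hw⟩ := hy.2
  have hyt : od y = od t * od x := by rw [ht, od_mul]
  have e1 : od t * od x + 1 = 2 ^ (k + 2) * w := by rw [← hyt, hw]
  have e2 : od t - 1 = 2 ^ k * (q * od t - 4 * w) := by
    zify [htp]
    have e3 : ((4 * w : ℕ) : ℤ) ≤ ((q * od t : ℕ) : ℤ) := by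
      have : 2 ^ k * (4 * w) ≤ 2 ^ k * (q * od t) := by
        calc 2 ^ k * (4 * w) = od t * od x + 1 := by rw [e1]; ring
          _ ≤ od t * od x + od t := by omega
          _ = 2 ^ k * (q * od t) := by rw [← mul_assoc, hkq]; ring
      exact_mod_cast Nat.le_of_mul_le_mul_left this (by positivity)
    have e4 : ((q * od t - 4 * w : ℕ) : ℤ) = (q * od t : ℕ) - (4 * w : ℕ) :=
      Nat.cast_sub (by exact_mod_cast e3)
    rw [e4]
    have e5 : (2 : ℤ) ^ k * q = od x + 1 := by exact_mod_cast hkq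
    have e6 : (od t : ℤ) * od x + 1 = 2 ^ (k + 2) * w := by exact_mod_cast e1
    push_cast
    rw [mul_sub, ← mul_assoc, e5]
    rw [pow_add] at e6
    linear_combination (-1 : ℤ) * e6
  have ht4 : od t % 4 = 1 := by
    have : od t = 4 * (2 ^ l * (q * od t - 4 * w)) + 1 := by
      have : 2 ^ k * (q * od t - 4 * w) = 4 * (2 ^ l * (q * od t - 4 * w)) := by
        rw [hl, pow_add]; ring
      omega
    omega
  have hle : 4 * w ≤ q * od t := by
    by_contra hcon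
    have h3 : q * od t - 4 * w = 0 := by omega
    rw [h3, mul_zero] at e2
    have h4 : od t = 1 := by omega
    rw [h4, one_mul] at e1
    rw [h4, mul_one] at hcon
    have h5 : 2 ^ k * q = 2 ^ k * (4 * w) := by rw [hkq, e1]; ring
    have h6 : q = 4 * w := Nat.eq_of_mul_eq_mul_left (by positivity) h5
    omega
  have hodd1 : ¬ 2 ∣ q * od t - 4 * w := by
    intro h3
    have h4 : 2 ∣ q * od t := by omega
    rcases (Nat.Prime.dvd_mul Nat.prime_two).1 h4 with h5 | h5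
    · exact hqo h5
    · exact hto h5
  have d1 : od (od t - 1) % 4 = q % 4 := by
    rw [e2, od_eq hodd1]
    have h3 : (q * od t) % 4 = q % 4 := by
      rw [Nat.mul_mod, ht4, mul_one, Nat.mod_mod]
    omega
  -- the difference
  obtain ⟨v, hv⟩ := hy2
  have f1 : y - x = 2 ^ a * (2 ^ (k + 2) * v - od x) := by
    rw [Nat.mul_sub, hxa, hv]
    congr 1
    rw [pow_add]; ring
  have hlt : od x < 2 ^ (k + 2) * v := by
    have h10 : 0 < y - x := by omega
    rw [f1] at h10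
    have := Nat.pos_of_mul_pos_left h10
    omega
  have hodd : ¬ 2 ∣ 2 ^ (k + 2) * v - od x := by
    intro h10
    have h11 : 2 ∣ 2 ^ (k + 2) * v := Dvd.dvd.mul_right (dvd_pow_self 2 (by omega)) v
    exact hxo ((Nat.dvd_sub_iff_right hlt.le h11).1 h10)
  have f2 : od (y - x) - 1 = 2 ^ k * (4 * v - q) := by
    rw [f1, od_eq hodd, Nat.mul_sub, hkq, pow_add, Nat.sub_sub]
    congr 1
    ring
  have hlt2 : q ≤ 4 * v := by
    by_contra hcon
    push Not at hcon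
    have h3 : 2 ^ k * (4 * v) < 2 ^ k * q := Nat.mul_lt_mul_of_pos_left hcon (by positivity)
    rw [hkq] at h3
    have h4 : 2 ^ k * (4 * v) = 2 ^ (k + 2) * v := by rw [pow_add]; ring
    omega
  have hodd2 : ¬ 2 ∣ 4 * v - q := by omega
  have d2 : od (od (y - x) - 1) % 4 = (4 * v - q) % 4 := by rw [f2, od_eq hodd2]
  have d3 := c0_od hz
  omega

/-- Main statement, for the colouring `c0`. -/
theorem main {H : Set ℕ} (hinf : H.Infinite) (hpos : ∀ h ∈ H, 0 < h)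
    (hmono : ∀ x ∈ H, ∀ y ∈ H, c0 x = c0 y) (j : Bool × Bool × Fin 4 × Fin 3)
    (hc : ∀ x ∈ H, ∀ y ∈ H, x < y → ∃ t, y = t * x ∧ c0 (y - x) = j ∧ c0 t = j) : False := by
  have hc' : ∀ x ∈ H, ∀ y ∈ H, x < y → ∃ t, y = t * x ∧ c0 (y - x) = c0 t := by
    intro x hx y hy h
    obtain ⟨t, h1, h2, h3⟩ := hc x hx y hy h
    exact ⟨t, h1, h2.trans h3.symm⟩
  have hdvd : ∀ x ∈ H, ∀ y ∈ H, x < y → x ∣ y := by
    intro x hx y hy h
    obtain ⟨t, ht, -⟩ := hc' x hx y hy h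
    exact ⟨t, by rw [ht, mul_comm]⟩
  by_cases hI : ∀ N, 0 < N → ∃ y ∈ H, N ∣ y
  · exact caseI hpos hmono hc' hI
  · push Not at hI
    obtain ⟨N, hN, h⟩ := hI
    obtain ⟨x, hx, y, hy, hxy, h1⟩ := caseII_t hinf hpos hc' hN h
    have h2 := two_unbounded hinf hpos hc'
    refine caseII hinf hpos hc' h2 (fun K hK => caseII_z hinf hpos hdvd h2 ?_ K hK)
    intro x' hx' y' hy' hxy'
    obtain ⟨t, ht, -, ht2⟩ := hc x hx y hy hxy
    obtain ⟨t', ht', hz', -⟩ := hc x' hx' y' hy' hxy'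
    exact (c0_mp (hz'.trans ht2.symm)).2 (h1 t ht)

/-- No monochromaticity of `H` needed. -/
theorem main' {H : Set ℕ} (hinf : H.Infinite) (hpos : ∀ h ∈ H, 0 < h)
    (j : Bool × Bool × Fin 4 × Fin 3)
    (hc : ∀ x ∈ H, ∀ y ∈ H, x < y → ∃ t, y = t * x ∧ c0 (y - x) = j ∧ c0 t = j) : False := by
  obtain ⟨i, hi⟩ := pigeon hinf c0
  exact main hi (fun h hh => hpos h hh.1) (fun x hx y hy => hx.2.trans hy.2.symm) j
    (fun x hx y hy h => hc x hx.1 y hy.1 h)

end Pool.Agent.KS6_73.DQ
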